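import Mathlib
import Pool.Agent.R727.Variants

set_option autoImplicit false

/-!
# The minimum degree of variants `T_n^a` is smaller than `2n - rank a` when `n` is large

Write the points of `X` in base `q` with three digits. For each digit `i` the variant acts on pairs
of elements of `im(a) × {digits}`, and a single generator can see the `i`-th digits (and the images
under `a`) of two points at once. So only `3 ⌈n/2⌉` generators are needed, together with
`3 (r q)^2 = O(r^2 n^(2/3))` further points.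
-/

namespace Pool.Agent.Results.MP_e4b752_al.SmallDegree

open Pool.Agent.R727.Variants

/-- The `i`-th digit in base `q`. -/
def dig (q i x : ℕ) : ℕ := x / q ^ i % q

lemma dig_inj {q x y : ℕ} (hx : x < q ^ 3) (hy : y < q ^ 3)
    (h0 : dig q 0 x = dig q 0 y) (h1 : dig q 1 x = dig q 1 y) (h2 : dig q 2 x = dig q 2 y) :
    x = y := by
  have key : ∀ z : ℕ, z < q ^ 3 → z = dig q 0 z + q * (dig q 1 z + q * dig q 2 z) := by
    intro z hz
    have hd : z / q / q < q := by
      rw [Nat.div_div_eq_div_mul]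
      apply Nat.div_lt_of_lt_mul
      calc z < q ^ 3 := hz
        _ = q * q * q := by ring
    have e0 : z % q + q * (z / q) = z := Nat.mod_add_div z q
    have e1 : (z / q) % q + q * (z / q / q) = z / q := Nat.mod_add_div (z / q) q
    have e2 : (z / q / q) % q = z / q / q := Nat.mod_eq_of_lt hd
    have e3 : z / q ^ 2 = z / q / q := by rw [Nat.div_div_eq_div_mul, sq]
    simp only [dig, pow_zero, Nat.div_one, pow_one, e3, e2]
    rw [e1, e0]
  rw [key x hx, key y hy, h0, h1, h2]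

/-- The general upper bound. -/
theorem minDegree_le_digits {n q : ℕ} (a : Fin n → Fin n) (hn : 0 < n) (hq : n ≤ q ^ 3) :
    minDegree (Variant a) ≤ 3 * ((rank a * q) ^ 2 + (n + 1) / 2) := by
  classical
  have hq0 : 0 < q := by
    rcases Nat.eq_zero_or_pos q with h | h
    · subst h; simp at hq; omega
    · exact h
  let φ : Fin 3 → Fin n → (Set.range a × Fin q) := fun i x =>
    (⟨a x, x, rfl⟩, ⟨dig q i x, Nat.mod_lt _ hq0⟩)
  let g : Fin 3 → Fin ((n + 1) / 2) → Fin 2 → Fin n := fun _ k τ =>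
    ⟨min (2 * (k : ℕ) + τ) (n - 1), by omega⟩
  have hemb : Emb a (Σ _i : Fin 3, ((Fin 2 → (Set.range a × Fin q)) ⊕ Fin ((n + 1) / 2))) := by
    refine emb_of_components (fun _ => (Set.range a × Fin q)) (fun _ => Fin 2)
      (fun _ => Fin ((n + 1) / 2)) a φ (fun _ y => (y.1 : Fin n)) (fun _ _ => rfl) g ?_ ?_
    · intro _ x
      right
      refine ⟨⟨x / 2, by omega⟩, ⟨x % 2, by omega⟩, ?_⟩
      apply Fin.ext
      simp only [g]
      omega
    · intro x y h
      have h' : ∀ i : Fin 3, dig q i x = dig q i y := by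
        intro i
        have h1 : (φ i x).2 = (φ i y).2 := by rw [h i]
        exact congrArg Fin.val h1
      exact Fin.ext (dig_inj (by omega) (by omega) (h' 0) (h' 1) (h' 2))
  have hcard : Fintype.card (Σ _i : Fin 3, ((Fin 2 → (Set.range a × Fin q)) ⊕ Fin ((n + 1) / 2))) =
      3 * ((rank a * q) ^ 2 + (n + 1) / 2) := by
    rw [Fintype.card_sigma]
    simp only [Fintype.card_sum, Fintype.card_fun, Fintype.card_prod, Fintype.card_fin,
      Finset.sum_const, Finset.card_univ, smul_eq_mul]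
    rw [rank, ← Nat.card_coe_set_eq, Nat.card_eq_fintype_card]
  have h1 := minDegree_le (Equiv.refl (Fin n)) a hemb (by rw [hcard]; omega)
  rw [hcard] at h1
  exact h1

/-- For every rank `r ≥ 1` the minimum degree is smaller than `2n - r` once `n ≥ (6r²+4)³`. -/
theorem minDegree_lt {n : ℕ} (a : Fin n → Fin n) (hn : (6 * rank a ^ 2 + 4) ^ 3 ≤ n) :
    minDegree (Variant a) < 2 * n - rank a := by
  have hn0 : 0 < n := lt_of_lt_of_le (by positivity) hn
  -- the least `q` with `n ≤ q ^ 3`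
  have hex : ∃ q, n ≤ q ^ 3 := ⟨n, Nat.le_self_pow (by norm_num) n⟩
  classical
  obtain ⟨q, hq, hmin⟩ : ∃ q, n ≤ q ^ 3 ∧ ∀ m < q, ¬ n ≤ m ^ 3 :=
    ⟨Nat.find hex, Nat.find_spec hex, fun m hm => Nat.find_min hex hm⟩
  set r := rank a with hr
  have hq1 : 6 * r ^ 2 + 4 ≤ q := by
    by_contra hcon
    push Not at hcon
    have h1 : q ^ 3 < (6 * r ^ 2 + 4) ^ 3 := Nat.pow_lt_pow_left hcon (by norm_num)
    omega
  obtain ⟨p, rfl⟩ : ∃ p, q = p + 1 := ⟨q - 1, by omega⟩
  have hp : p ^ 3 < n := by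
    have := hmin p (by omega)
    omega
  have h1 := minDegree_le_digits a hn0 hq
  rw [← hr] at h1
  -- `p ^ 3 ≥ 6 r ^ 2 (p + 1) ^ 2 + 2 r + 3`
  have h2 : 6 * r ^ 2 * (p + 1) ^ 2 + 2 * r + 3 ≤ p ^ 3 := by
    obtain ⟨d, hd⟩ : ∃ d, p = 6 * r ^ 2 + 3 + d := ⟨p - (6 * r ^ 2 + 3), by omega⟩
    have h3 : r ≤ r ^ 2 := Nat.le_self_pow (by norm_num) r
    have h4 : 6 * r ^ 2 = p - 3 - d := by omega
    have h5 : 6 * r ^ 2 * (p + 1) ^ 2 + 2 * r + 3 ≤ p ^ 3 := by
      zify
      have hd' : (6 : ℤ) * r ^ 2 = p - 3 - d := by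
        have : (p : ℤ) = 6 * r ^ 2 + 3 + d := by exact_mod_cast hd
        linarith
      have h3' : (r : ℤ) ≤ r ^ 2 := by exact_mod_cast h3
      have hr0 : (0 : ℤ) ≤ r := by positivity
      have hd0 : (0 : ℤ) ≤ d := by positivity
      have hp0 : (0 : ℤ) ≤ p := by positivity
      rw [hd']
      have h6 : (p : ℤ) = 6 * r ^ 2 + 3 + d := by exact_mod_cast hd
      nlinarith [mul_nonneg hd0 (sq_nonneg ((p : ℤ) + 1)), mul_nonneg hp0 hp0]
    exact h5
  have h7 : 2 * (3 * ((r * (p + 1)) ^ 2 + (n + 1) / 2)) ≤ 6 * r ^ 2 * (p + 1) ^ 2 + 3 * (n + 1) := by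
    have h8 : 2 * ((n + 1) / 2) ≤ n + 1 := Nat.mul_div_le (n + 1) 2
    have h9 : (r * (p + 1)) ^ 2 = r ^ 2 * (p + 1) ^ 2 := by ring
    rw [h9]
    linarith
  omega

/-- **Full negative answer to Q1.** There are `n` and `a ∈ T_n` of rank at least `2` with
`μ(T_n^a) ≠ 2n - rank a`; in fact `μ(T_n^a) < 2n - r` for every `a ∈ T_n` of rank `r` as soon as
`n ≥ (6r²+4)³`, so that the formula fails for every rank `r ≥ 2`. -/
theorem result :
    (∃ (n : ℕ) (a : Fin n → Fin n), 2 ≤ rank a ∧ minDegree (Variant a) ≠ 2 * n - rank a) ∧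
    (∀ (n : ℕ) (a : Fin n → Fin n), (6 * rank a ^ 2 + 4) ^ 3 ≤ n →
      minDegree (Variant a) < 2 * n - rank a) := by
  refine ⟨?_, fun n a h => minDegree_lt a h⟩
  let n : ℕ := 28 ^ 3
  have h0 : 0 < n := by norm_num [n]
  have h1 : 1 < n := by norm_num [n]
  let a : Fin n → Fin n := fun i => if i = ⟨0, h0⟩ then ⟨0, h0⟩ else ⟨1, h1⟩
  have hne : (⟨0, h0⟩ : Fin n) ≠ ⟨1, h1⟩ := by
    intro h
    have := congrArg Fin.val h
    simp at this
  have hrange : Set.range a = {⟨0, h0⟩, ⟨1, h1⟩} := by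
    ext x
    simp only [Set.mem_range, Set.mem_insert_iff, Set.mem_singleton_iff]
    constructor
    · rintro ⟨i, rfl⟩
      by_cases hi : i = ⟨0, h0⟩
      · left; exact if_pos hi
      · right; exact if_neg hi
    · rintro (rfl | rfl)
      · exact ⟨⟨0, h0⟩, if_pos rfl⟩
      · exact ⟨⟨1, h1⟩, if_neg hne.symm⟩
  have hrank : rank a = 2 := by
    rw [rank, hrange, Set.ncard_pair hne]
  refine ⟨n, a, hrank.ge, ?_⟩
  have h2 := minDegree_lt a (by rw [hrank]; exact le_of_eq rfl)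
  exact h2.ne

end Pool.Agent.Results.MP_e4b752_al.SmallDegree
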